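import Mathlib
import Pool.Agent.K3h79.PP.Plan

/-!
# Path-pairable planar graphs have unbounded diameter

The graph with parameters `r`, `s = 3 * 2 ^ r + 3`: the points `0, …, 2 ^ (r + s)` are joined by the
dyadic edges `{x, x + 2 ^ i}` (`i ≤ s`, `2 ^ i ∣ x`); a hub is joined to all points; a binary tree
with `2 ^ r` nodes hangs on the points `a * 2 ^ s`. The distance from the root of the tree to the
hub is `r + 2`.
-/

set_option autoImplicit false

namespace Pool.Agent.Results.MP_9b13a2_co.UnboundedDiameter

/-- A graph is planar: it has a drawing in the plane in which the vertices are distinct points, the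
edges are straight segments, no vertex lies on an edge of which it is not an end, and two different
edges meet at most in a common end. -/
def Planar {V : Type} (G : SimpleGraph V) : Prop :=
  ∃ f : V → ℝ × ℝ, Function.Injective f ∧
    (∀ a b v, G.Adj a b → f v ∈ segment ℝ (f a) (f b) → v = a ∨ v = b) ∧
    ∀ a b c d, G.Adj a b → G.Adj c d → s(a, b) ≠ s(c, d) →
      ∀ p ∈ segment ℝ (f a) (f b) ∩ segment ℝ (f c) (f d),
        ∃ v, p = f v ∧ (v = a ∨ v = b) ∧ (v = c ∨ v = d)

/-- A graph is path-pairable: for every pairing `{s i, t i}` of its vertex set (every listing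
`s 0, …, s (m - 1), t 0, …, t (m - 1)` of all its vertices without repetition) there are pairwise
edge-disjoint paths `P i` joining `s i` to `t i`. -/
def PathPairable {V : Type} (G : SimpleGraph V) : Prop :=
  ∀ (m : ℕ) (s t : Fin m → V), Function.Bijective (Sum.elim s t) →
    ∃ P : ∀ i : Fin m, G.Walk (s i) (t i),
      (∀ i, (P i).IsPath) ∧ ∀ i j, i ≠ j → List.Disjoint (P i).edges (P j).edges

/-- For every `D` there is a finite planar path-pairable graph (with an even number of vertices,
connected) of diameter at least `D`. -/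
theorem result (D : ℕ) :
    ∃ (V : Type) (_ : Fintype V) (G : SimpleGraph V),
      Even (Fintype.card V) ∧ G.Connected ∧ Planar G ∧ PathPairable G ∧ D ≤ G.diam := by
  refine ⟨Pool.Agent.K3h79.PP.Vt (D + 1) (3 * 2 ^ (D + 1) + 3), inferInstance,
    Pool.Agent.K3h79.PP.GG (D + 1) (3 * 2 ^ (D + 1) + 3),
    Pool.Agent.K3h79.PP.even_card (by omega), Pool.Agent.K3h79.PP.connected_GG,
    Pool.Agent.K3h79.PP.planar_GG (by omega) (by omega),
    Pool.Agent.K3h79.PP.pathPairable_GG (D + 1), ?_⟩
  exact (Nat.le_succ D).trans Pool.Agent.K3h79.PP.diam_ge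

end Pool.Agent.Results.MP_9b13a2_co.UnboundedDiameter
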